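import Pool.Agent.H44.TY.Main
import Pool.Agent.H18.LA.Main

/-!
# TYPES (think 1842, 3.3): windows whose collar is lifted with period two, one critical point

`q` lifts the collar of the level 0 window `Φ`, by `f^[k]`, on the full strip `St (log θ) 0`; `z` at bounded distance.
If `q` closes after two turns then it closes after one turn and `c` is not in the window.
-/

set_option autoImplicit false

open Filter Topology Metric Set MeasureTheory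

namespace Pool.Agent.H44.LA

open Pool.Agent.H56.UD Pool.Agent.H55.PB Pool.Agent.H56.WP Pool.Agent.H66.GEO Pool.Agent.H44.TY

variable {f : ℂ → ℂ} {U J P E : Set ℂ} {δ b0 : ℝ} {η : ℂ → ℂ → ℂ} {ρ : ℝ} {X hh μ : ℂ → ℂ} {c : ℂ}

/-- TYPES -/
theorem typ (h : Pool.Agent.H56.UD.PS f U J P {c} δ η ρ) (hX : FX f U J E δ X hh μ b0) (hcP : c ∈ P) {z : ℂ} (hz : z ∈ E)
    (hrc : Rc f c z) {θ M ρa ρb : ℝ} (hθ : 0 < θ) (hθ1 : θ < 1) (ha : θ < ρa) (hb : ρb < 1) :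
    ∃ ε0 : ℝ, 0 < ε0 ∧ ∀ (k : ℕ) (y : ℂ) (ε : ℝ) (Φ q : ℂ → ℂ) (ζ ζ1 : ℂ), y ∈ J → ε ≤ ε0 → Wd f U J P δ 0 θ y ε Φ →
      DifferentiableOn ℂ q (St (Real.log θ) 0) →
      (∀ t ∈ St (Real.log θ) 0, q t ∈ dm f U J δ k ∧ f^[k] (q t) = Φ (Complex.exp t)) →
      ζ ∈ St (Real.log θ) 0 → ρa ≤ ‖Complex.exp ζ‖ → ‖Complex.exp ζ‖ ≤ ρb → ‖q ζ - z‖ ≤ M * ‖deriv q ζ‖ →
      ζ1 ∈ St (Real.log θ) 0 → q (ζ1 + 4 * Real.pi * Complex.I) = q ζ1 →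
      (∀ t ∈ St (Real.log θ) 0, q (t + 2 * Real.pi * Complex.I) = q t) ∧ c ∉ Φ '' ball 0 1 := by
  have hcC : c ∈ ({c} : Set ℂ) := mem_singleton c
  have hLA : ∀ θ C : ℝ, 0 < θ → θ < 1 → ∃ ε0 : ℝ, 0 < ε0 ∧ ∀ (K m : ℕ) (y a : ℂ) (ε : ℝ) (Φ g : ℂ → ℂ), y ∈ J → ε ≤ ε0 →
    Wd f U J P δ K θ y ε Φ → ‖a‖ ≤ θ → Φ a = c → DifferentiableOn ℂ g (ball 0 1) →
    (∀ v ∈ ball (0 : ℂ) 1, g v ∈ dm f U J δ (m + K) ∧ f^[m] (g v) = Φ v) → ¬ ‖g 0 - z‖ ≤ C * ‖deriv g 0‖ := fun θ C hθ hθ1 =>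
    Pool.Agent.H18.LA.lemA h hX hθ hθ1 hz hcC (fun c' hc' hne => absurd (mem_singleton_iff.1 hc') hne) hrc
  have hLA2 : LAz f U J P {b | b ∈ ({c} : Set ℂ) ∧ Rc f b z} δ z := by
    intro θ C hθ hθ1 b hb
    rw [mem_singleton_iff.1 hb.1]
    exact hLA θ C hθ hθ1
  obtain ⟨ε1, hε1, h1⟩ := typ_gen h hLA2 (M := M) hθ hθ1 ha hb
  obtain ⟨R, r, hR0, hR1, hr, hRx, hrS⟩ := typ_con hθ hθ1 ha hb
  obtain ⟨R', hR'⟩ : ∃ R', R' = max ρb θ := ⟨_, rfl⟩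
  have hR'1 : R' < 1 := by rw [hR']; exact max_lt hb hθ1
  have hR'0 : 0 < R' := lt_of_lt_of_le hθ (by rw [hR']; exact le_max_right _ _)
  obtain ⟨D, hD, hdis⟩ := Pool.Agent.H18.LA.dis hR'0 hR'1
  obtain ⟨ε2, hε2, h2⟩ := hLA θ (D + |M| * D) hθ hθ1
  refine ⟨min ε1 ε2, lt_min hε1 hε2, ?_⟩
  intro k y ε Φ q ζ ζ1 hy hε hW hq hv hζ hζa hζb hqz hζ1 hcl
  obtain ⟨g, hgU, hgq⟩ := h1 k y ε Φ q ζ ζ1 hy (hε.trans (min_le_left _ _)) hW
    (fun c' hc' _ _ => by rw [mem_singleton_iff.1 hc']; exact hrc) hq hv hζ hζa hζb hqz hζ1 hcl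
  refine ⟨fun t ht => ?_, ?_⟩
  · have ht2 : t + 2 * Real.pi * Complex.I ∈ St (Real.log θ) 0 := by
      have : (t + 2 * Real.pi * Complex.I).re = t.re := by simp
      show _ < (t + 2 * Real.pi * Complex.I).re ∧ (t + 2 * Real.pi * Complex.I).re < 0
      rw [this]
      exact ht
    rw [hgq t ht, hgq _ ht2, Complex.exp_add, Complex.exp_two_pi_mul_I, mul_one]
  · rintro ⟨u, hu, huc⟩
    have huθ : ‖u‖ ≤ θ := by
      by_contra hcon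
      have := hW.col u (not_le.1 hcon) (mem_ball_zero_iff.1 hu)
      rw [Function.iterate_zero, id, huc] at this
      exact this hcP
    have hgi : InjOn g (ball 0 1) := fun v hv w hw he => hW.inj hv hw (by
      rw [← (hgU.2 v hv).2, ← (hgU.2 w hw).2, he])
    refine h2 0 k y u ε Φ g hy (hε.trans (min_le_right _ _)) hW huθ huc hgU.1 (fun v hv => hgU.2 v hv) ?_
    have hw : Complex.exp ζ ∈ closedBall (0 : ℂ) R' := by
      rw [mem_closedBall_zero_iff, hR']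
      exact hζb.trans (le_max_left _ _)
    have hz0 : (0 : ℂ) ∈ closedBall (0 : ℂ) R' := mem_closedBall_self hR'0.le
    obtain ⟨-, d1, -, -⟩ := hdis g hgU.1 hgi _ hw 0 hz0
    obtain ⟨d0, -, d2, -⟩ := hdis g hgU.1 hgi 0 hz0 _ hw
    have hwb : Complex.exp ζ ∈ ball (0 : ℂ) 1 := mem_ball_zero_iff.2 ((mem_closedBall_zero_iff.1 hw).trans_lt hR'1)
    have hdq : deriv q ζ = deriv g (Complex.exp ζ) * Complex.exp ζ := by
      have e2 : q =ᶠ[𝓝 ζ] fun t => g (Complex.exp t) := by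
        filter_upwards [(Pool.Agent.H56.WP.Sp_open (Real.log θ) 0).mem_nhds hζ] with t ht
        exact hgq t ht
      have e4 : HasDerivAt g (deriv g (Complex.exp ζ)) (Complex.exp ζ) :=
        (hgU.1.differentiableAt (isOpen_ball.mem_nhds hwb)).hasDerivAt
      rw [e2.deriv_eq]
      exact (HasDerivAt.comp (h₂ := g) (h := Complex.exp) ζ e4 (Complex.hasDerivAt_exp ζ)).deriv
    have hqn : ‖deriv q ζ‖ ≤ D * ‖deriv g 0‖ := by
      rw [hdq, norm_mul]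
      have e1 : ‖Complex.exp ζ‖ ≤ 1 := (mem_ball_zero_iff.1 hwb).le
      calc ‖deriv g (Complex.exp ζ)‖ * ‖Complex.exp ζ‖ ≤ ‖deriv g (Complex.exp ζ)‖ * 1 :=
            mul_le_mul_of_nonneg_left e1 (norm_nonneg _)
        _ ≤ _ := by rw [mul_one]; exact d1
    have h5 : ‖q ζ - z‖ ≤ |M| * (D * ‖deriv g 0‖) := by
      refine hqz.trans ?_
      calc M * ‖deriv q ζ‖ ≤ |M| * ‖deriv q ζ‖ := mul_le_mul_of_nonneg_right (le_abs_self M) (norm_nonneg _)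
        _ ≤ _ := mul_le_mul_of_nonneg_left hqn (abs_nonneg M)
    have h6 : ‖g 0 - q ζ‖ ≤ D * ‖deriv g 0‖ := by
      rw [hgq ζ hζ]
      refine d2.trans ?_
      have : ‖(0 : ℂ) - Complex.exp ζ‖ ≤ 1 := by
        rw [zero_sub, norm_neg]
        exact (mem_ball_zero_iff.1 hwb).le
      have h7 : 0 ≤ D * ‖deriv g 0‖ := by positivity
      nlinarith
    calc ‖g 0 - z‖ = ‖(g 0 - q ζ) + (q ζ - z)‖ := by rw [sub_add_sub_cancel]
      _ ≤ ‖g 0 - q ζ‖ + ‖q ζ - z‖ := norm_add_le _ _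
      _ ≤ D * ‖deriv g 0‖ + |M| * (D * ‖deriv g 0‖) := add_le_add h6 h5
      _ = _ := by ring

end Pool.Agent.H44.LA
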