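import Pool.Agent.H56.WP.Stp
import Pool.Agent.H56.UD.DN

/-!
# ROB => DIM (MP_8f2e1c), chapter A (Lemma A, types): definitions

`Fo X m z e S y Γ`: the FORM of the field `X` in the chart `y` seen through `Γ` (up to holomorphic terms
`Γ' X(y) = m y' conj (Γ - z)` with error `e |y'|`). `Rc f c z`: the orbit of `z` accumulates at `c`.
`Un f U J δ n Φ g`: `g` is a (univalent) pull back of the window `Φ` by `f^[n]`.
-/

set_option autoImplicit false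

open Filter Topology Metric Set MeasureTheory

namespace Pool.Agent.H44.LA

open Pool.Agent.H56.UD Pool.Agent.H55.PB

/-- the form of `X` in the chart `y`, seen through `Γ` -/
def Fo (X : ℂ → ℂ) (m z : ℂ) (e : ℝ) (S : Set ℂ) (y Γ : ℂ → ℂ) : Prop :=
  ∃ H : ℂ → ℂ, DifferentiableOn ℂ H S ∧
    ∀ v ∈ S, ‖deriv Γ v * X (y v) - m * deriv y v * (starRingEnd ℂ) (Γ v - z) - H v‖ ≤ e * ‖deriv y v‖

/-- the orbit of `z` accumulates at `c` -/
def Rc (f : ℂ → ℂ) (c z : ℂ) : Prop := ∀ ε : ℝ, 0 < ε → ∀ N : ℕ, ∃ n ≥ N, f^[n] z ∈ ball c ε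

/-- pull backs of the window `Φ` by `f^[n]` -/
def Un (f : ℂ → ℂ) (U J : Set ℂ) (δ : ℝ) (n : ℕ) (Φ g : ℂ → ℂ) : Prop :=
  DifferentiableOn ℂ g (ball 0 1) ∧ ∀ v ∈ ball (0 : ℂ) 1, g v ∈ dm f U J δ n ∧ f^[n] (g v) = Φ v

end Pool.Agent.H44.LA
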