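import Pool.Agent.H44.LA.Defs

/-!
# Forms of the field `X`

PROOF of `fo_two`. `X_it` (H56/UD/DA): `X (f^[k] w) = deriv (f^[k]) w * X w + Hk w` on `dm k`, and with `m`: `Hm`. `der_lift`:
`deriv (f^[k]) (Γ u) * deriv Γ u = deriv ψ u` (`u ∈ T`) and `deriv (f^[m]) (y v) * deriv y v = deriv ψ (β v) * deriv β v` (chain rule for
`ψ ∘ β`). Put `D = deriv (f^[m]) (y v)`. `X (ψ (β v))` in two ways:
`deriv Γ (β v) * (D * X (y v) + Hm (y v)) = deriv Γ (β v) * X (ψ (β v)) = deriv ψ (β v) * X (Γ (β v)) + deriv Γ (β v) * Hk (Γ (β v))`.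
Multiply by `deriv y v / deriv ψ (β v)`:
`deriv Γ (β v) * deriv β v * X (y v) = deriv y v * X (Γ (β v)) + deriv y v * deriv Γ (β v) * (Hk (Γ (β v)) - Hm (y v)) / deriv ψ (β v)`,
and `X (Γ (β v)) = μ z * conj (Γ (β v) - z) + A (Γ (β v)) + (error ≤ e)`. The holomorphic term is
`H v = deriv y v * A (Γ (β v)) + deriv y v * deriv Γ (β v) * (Hk (Γ (β v)) - Hm (y v)) / deriv ψ (β v)`.
`deriv (Γ ∘ β) v = deriv Γ (β v) * deriv β v`.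

PROOF of `fo_elim`. First form times `deriv Γ2 v`, second times `deriv Γ1 v`, difference, divide by `deriv y v`.
-/

set_option autoImplicit false

open Filter Topology Metric Set MeasureTheory

namespace Pool.Agent.H44.LA

open Pool.Agent.H56.UD Pool.Agent.H55.PB

variable {f : ℂ → ℂ} {U J P Cr E : Set ℂ} {δ b0 : ℝ} {η : ℂ → ℂ → ℂ} {ρ : ℝ} {X hh μ : ℂ → ℂ}

/-- the form through `Γ ∘ β`, when `f^[k] ∘ Γ = ψ`, `f^[m] ∘ y = ψ ∘ β` -/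
theorem fo_two (h : PS f U J P Cr δ η ρ) (hX : FX f U J E δ X hh μ b0) {k m : ℕ} {S T : Set ℂ} (hS : IsOpen S) (hT : IsOpen T)
    {y ψ β Γ A : ℂ → ℂ} (hy : DifferentiableOn ℂ y S) (hβ : DifferentiableOn ℂ β S) (hβm : MapsTo β S T)
    (hym : ∀ v ∈ S, y v ∈ dm f U J δ m ∧ f^[m] (y v) = ψ (β v))
    (hψ : DifferentiableOn ℂ ψ T) (hψ0 : ∀ u ∈ T, deriv ψ u ≠ 0) (hΓ : DifferentiableOn ℂ Γ T)
    (hΓm : ∀ u ∈ T, Γ u ∈ dm f U J δ k ∧ f^[k] (Γ u) = ψ u) {z : ℂ} {r e : ℝ} (hA : DifferentiableOn ℂ A (ball z r))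
    (hA2 : ∀ w ∈ ball z r, ‖X w - μ z * (starRingEnd ℂ) (w - z) - A w‖ ≤ e) (hr : ∀ v ∈ S, Γ (β v) ∈ ball z r) :
    Fo X (μ z) z e S y (fun v => Γ (β v)) := by
  sorry

/-- elimination of `X` -/
theorem fo_elim {m z : ℂ} {e1 e2 : ℝ} {S : Set ℂ} (hS : IsOpen S) {y Γ1 Γ2 : ℂ → ℂ} (hy : DifferentiableOn ℂ y S)
    (hy0 : ∀ v ∈ S, deriv y v ≠ 0) (h1 : DifferentiableOn ℂ Γ1 S) (h2 : DifferentiableOn ℂ Γ2 S)
    (f1 : Fo X m z e1 S y Γ1) (f2 : Fo X m z e2 S y Γ2) :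
    ∃ H : ℂ → ℂ, DifferentiableOn ℂ H S ∧ ∀ v ∈ S, ‖m * (deriv Γ2 v * (starRingEnd ℂ) (Γ1 v - z) -
      deriv Γ1 v * (starRingEnd ℂ) (Γ2 v - z)) - H v‖ ≤ e1 * ‖deriv Γ2 v‖ + e2 * ‖deriv Γ1 v‖ := by
  sorry

end Pool.Agent.H44.LA
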