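import Pool.Agent.H44.LA.Frm

/-!
# The general Galois lemma

PROOF. `an n v = (Γ1 n v - z) / σ1 n`, `bn n v = (Γ2 n v - z) / σ2 n` (bounded by `M`, limits `A`, `B`). `fo_elim` divided by `σ1 n * σ2 n` (the numbers `σ`
are REAL, so `conj ((Γ1 - z) / σ1) = conj (Γ1 - z) / σ1`): holomorphic `Hn` with
`‖m * (deriv (bn n) v * conj (an n v) - deriv (an n) v * conj (bn n v)) - Hn v‖ ≤ (e1 n / σ1 n) ‖deriv (bn n) v‖ + (e2 n / σ2 n) ‖deriv (an n) v‖`.
Derivatives converge locally uniformly (`ulim_deriv`), so `m * (B' conj A - A' conj B)` is locally uniformly approximable by holomorphic functions,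
so it is holomorphic on `S` (copy `gal_app` from H56/UD/DD, with balls in `S`); divide by `m ≠ 0`; copy `gal_bar` (DD):
`conj (A') B' = conj (B') A'` on `S`.
`gal_aff`: near `w0` the quotient `B' / A'` is holomorphic and real valued, so it is a constant real number `t` (as in `gal_lim`, DD); identity theorem:
`B' = t A'` on `S`, so `B - t A` is constant on `S` (open, preconnected).
-/

set_option autoImplicit false

open Filter Topology Metric Set MeasureTheory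

namespace Pool.Agent.H44.LA

open Pool.Agent.H56.UD Pool.Agent.H55.PB

variable {X : ℂ → ℂ}

/-- the antiholomorphic derivative of a combination (copy from H56/UD/DD) -/
private theorem g_bar {g g' p p' : ℂ → ℂ} {u : ℂ} (hg : DifferentiableAt ℂ g u) (hg' : DifferentiableAt ℂ g' u)
    (hp : DifferentiableAt ℂ p u) (hp' : DifferentiableAt ℂ p' u)
    (hA : DifferentiableAt ℂ (fun v => (starRingEnd ℂ) (g v) * p v - (starRingEnd ℂ) (g' v) * p' v) u) :
    (starRingEnd ℂ) (deriv g u) * p u = (starRingEnd ℂ) (deriv g' u) * p' u := by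
  have hdir : ∀ F : ℂ → ℂ, DifferentiableAt ℂ F u → ∀ v : ℂ,
      HasDerivAt (fun t : ℝ => F (u + t * v)) (deriv F u * v) 0 := by
    intro F hF v
    have h1 : HasDerivAt (fun ζ : ℂ => u + ζ * v) v ((0 : ℝ) : ℂ) := by
      have := ((hasDerivAt_id ((0 : ℝ) : ℂ)).mul_const v).const_add u
      simpa using this
    have h2 : HasDerivAt F (deriv F u) ((fun ζ : ℂ => u + ζ * v) ((0 : ℝ) : ℂ)) := by
      have h3 : (fun ζ : ℂ => u + ζ * v) ((0 : ℝ) : ℂ) = u := by simp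
      rw [h3]
      exact hF.hasDerivAt
    have h4 : HasDerivAt (F ∘ fun ζ : ℂ => u + ζ * v) (deriv F u * v) ((0 : ℝ) : ℂ) := HasDerivAt.comp _ h2 h1
    exact h4.comp_ofReal
  have hv : ∀ v : ℂ, deriv (fun v => (starRingEnd ℂ) (g v) * p v - (starRingEnd ℂ) (g' v) * p' v) u * v =
      (star (deriv g u * v) * p u + (starRingEnd ℂ) (g u) * (deriv p u * v)) -
        (star (deriv g' u * v) * p' u + (starRingEnd ℂ) (g' u) * (deriv p' u * v)) := by
    intro v
    have h1 := hdir _ hA v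
    have h2 := (((hdir g hg v).star).mul (hdir p hp v)).sub (((hdir g' hg' v).star).mul (hdir p' hp' v))
    have h3 := h1.unique h2
    rw [h3]
    simp
  have h1 := hv 1
  have hi := hv Complex.I
  simp only [mul_one, star_mul', Complex.star_def, Complex.conj_I] at h1 hi
  have h2 : (2 * Complex.I) * ((starRingEnd ℂ) (deriv g u) * p u - (starRingEnd ℂ) (deriv g' u) * p' u) = 0 := by
    linear_combination hi - Complex.I * h1
  have h3 : (2 : ℂ) * Complex.I ≠ 0 := mul_ne_zero two_ne_zero Complex.I_ne_zero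
  exact sub_eq_zero.1 ((mul_eq_zero.1 h2).resolve_left h3)

/-- uniformly approximable functions are holomorphic (copy from H56/UD/DD) -/
private theorem g_app {A : ℂ → ℂ} {w : ℂ} {r : ℝ}
    (h : ∀ r' < r, ∀ ε : ℝ, 0 < ε → ∃ H : ℂ → ℂ, DifferentiableOn ℂ H (ball w r) ∧ ∀ u ∈ closedBall w r', ‖A u - H u‖ ≤ ε) :
    DifferentiableOn ℂ A (ball w r) := by
  intro u hu
  obtain ⟨r', h1, h2⟩ := exists_between (mem_ball.1 hu)
  choose H hH1 hH2 using fun n : ℕ => h r' h2 (1 / ((n : ℝ) + 1)) (by positivity)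
  have h3 : TendstoUniformlyOn H A atTop (ball w r') := by
    rw [Metric.tendstoUniformlyOn_iff]
    intro ε hε
    obtain ⟨N, hN⟩ := exists_nat_one_div_lt hε
    filter_upwards [eventually_ge_atTop N] with n hn v hv
    rw [dist_eq_norm]
    refine (hH2 n v (ball_subset_closedBall hv)).trans_lt (lt_of_le_of_lt ?_ hN)
    exact one_div_le_one_div_of_le (by positivity) (by exact_mod_cast Nat.add_le_add_right hn 1)
  have h4 : DifferentiableOn ℂ A (ball w r') :=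
    h3.tendstoLocallyUniformlyOn.differentiableOn
      (Eventually.of_forall fun n => (hH1 n).mono (ball_subset_ball h2.le)) isOpen_ball
  exact (h4.differentiableAt (isOpen_ball.mem_nhds (mem_ball.2 h1))).differentiableWithinAt

/-- joint convergence -/
private theorem g_cv {𝒰 : Ultrafilter ℕ} {S : Set ℂ} {F : ℕ → ℂ → ℂ} {F0 : ℂ → ℂ} (hF0 : ContinuousOn F0 S)
    (hF : TendstoLocallyUniformlyOn F F0 (𝒰 : Filter ℕ) S) : ∀ v ∈ S,
      Tendsto (fun y : ℕ × ℂ => F y.1 y.2) ((𝒰 : Filter ℕ) ×ˢ 𝓝[S] v) (𝓝 (F0 v)) := by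
  intro v hv
  have h1 := tendstoLocallyUniformlyOn_iff_forall_tendsto.1 hF v hv
  have h2 : Tendsto (fun y : ℕ × ℂ => F0 y.2) ((𝒰 : Filter ℕ) ×ˢ 𝓝[S] v) (𝓝 (F0 v)) :=
    (hF0 v hv).tendsto.comp tendsto_snd
  exact h2.congr_uniformity h1

/-- the form divided by the scales -/
private theorem g_one {m z : ℂ} {e1 e2 σ1 σ2 : ℝ} (s1 : 0 < σ1) (s2 : 0 < σ2) {S : Set ℂ} (hS : IsOpen S) {y Γ1 Γ2 : ℂ → ℂ}
    (hy : DifferentiableOn ℂ y S) (hy0 : ∀ v ∈ S, deriv y v ≠ 0) (h1 : DifferentiableOn ℂ Γ1 S)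
    (h2 : DifferentiableOn ℂ Γ2 S) (f1 : Fo X m z e1 S y Γ1) (f2 : Fo X m z e2 S y Γ2) :
    ∃ H : ℂ → ℂ, DifferentiableOn ℂ H S ∧ ∀ v ∈ S,
      ‖m * ((starRingEnd ℂ) ((Γ1 v - z) / (σ1 : ℂ)) * deriv (fun v => (Γ2 v - z) / (σ2 : ℂ)) v -
        (starRingEnd ℂ) ((Γ2 v - z) / (σ2 : ℂ)) * deriv (fun v => (Γ1 v - z) / (σ1 : ℂ)) v) - H v‖ ≤
        e1 / σ1 * ‖deriv (fun v => (Γ2 v - z) / (σ2 : ℂ)) v‖ + e2 / σ2 * ‖deriv (fun v => (Γ1 v - z) / (σ1 : ℂ)) v‖ := by
  obtain ⟨H, hH, hH2⟩ := fo_elim hS hy hy0 h1 h2 f1 f2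
  have c1 : (σ1 : ℂ) ≠ 0 := Complex.ofReal_ne_zero.2 s1.ne'
  have c2 : (σ2 : ℂ) ≠ 0 := Complex.ofReal_ne_zero.2 s2.ne'
  refine ⟨fun v => H v / ((σ1 : ℂ) * σ2), hH.div_const _, fun v hv => ?_⟩
  have d1 : deriv (fun v => (Γ1 v - z) / (σ1 : ℂ)) v = deriv Γ1 v / σ1 := by
    rw [deriv_div_const, deriv_sub_const]
  have d2 : deriv (fun v => (Γ2 v - z) / (σ2 : ℂ)) v = deriv Γ2 v / σ2 := by
    rw [deriv_div_const, deriv_sub_const]
  rw [d1, d2, map_div₀, map_div₀, Complex.conj_ofReal, Complex.conj_ofReal]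
  have e : m * ((starRingEnd ℂ) (Γ1 v - z) / σ1 * (deriv Γ2 v / σ2) - (starRingEnd ℂ) (Γ2 v - z) / σ2 * (deriv Γ1 v / σ1)) -
      H v / ((σ1 : ℂ) * σ2) = (m * (deriv Γ2 v * (starRingEnd ℂ) (Γ1 v - z) -
      deriv Γ1 v * (starRingEnd ℂ) (Γ2 v - z)) - H v) / ((σ1 : ℂ) * σ2) := by
    field_simp
  have n1 : ‖(σ1 : ℂ)‖ = σ1 := by rw [Complex.norm_real, Real.norm_eq_abs, abs_of_pos s1]
  have n2 : ‖(σ2 : ℂ)‖ = σ2 := by rw [Complex.norm_real, Real.norm_eq_abs, abs_of_pos s2]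
  rw [e, norm_div, norm_mul, n1, n2, norm_div, norm_div, n1, n2, div_le_iff₀ (mul_pos s1 s2)]
  refine (hH2 v hv).trans (le_of_eq ?_)
  field_simp

theorem gal_conj (𝒰 : Ultrafilter ℕ) {S : Set ℂ} (hS : IsOpen S) {m z : ℂ} (hm : m ≠ 0) {y Γ1 Γ2 : ℕ → ℂ → ℂ}
    {σ1 σ2 e1 e2 : ℕ → ℝ} (hy : ∀ᶠ n in (𝒰 : Filter ℕ), DifferentiableOn ℂ (y n) S ∧ ∀ v ∈ S, deriv (y n) v ≠ 0)
    (h1 : ∀ᶠ n in (𝒰 : Filter ℕ), DifferentiableOn ℂ (Γ1 n) S) (h2 : ∀ᶠ n in (𝒰 : Filter ℕ), DifferentiableOn ℂ (Γ2 n) S)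
    (f1 : ∀ᶠ n in (𝒰 : Filter ℕ), Fo X m z (e1 n) S (y n) (Γ1 n)) (f2 : ∀ᶠ n in (𝒰 : Filter ℕ), Fo X m z (e2 n) S (y n) (Γ2 n))
    (s1 : ∀ᶠ n in (𝒰 : Filter ℕ), 0 < σ1 n) (s2 : ∀ᶠ n in (𝒰 : Filter ℕ), 0 < σ2 n)
    (t1 : Tendsto (fun n => e1 n / σ1 n) (𝒰 : Filter ℕ) (𝓝 0)) (t2 : Tendsto (fun n => e2 n / σ2 n) (𝒰 : Filter ℕ) (𝓝 0))
    {A B : ℂ → ℂ} (hA : TendstoLocallyUniformlyOn (fun n v => (Γ1 n v - z) / (σ1 n : ℂ)) A (𝒰 : Filter ℕ) S)
    (hB : TendstoLocallyUniformlyOn (fun n v => (Γ2 n v - z) / (σ2 n : ℂ)) B (𝒰 : Filter ℕ) S) :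
    ∀ v ∈ S, (starRingEnd ℂ) (deriv A v) * deriv B v = (starRingEnd ℂ) (deriv B v) * deriv A v := by
  have gd1 : ∀ᶠ n in (𝒰 : Filter ℕ), DifferentiableOn ℂ (fun v => (Γ1 n v - z) / (σ1 n : ℂ)) S :=
    h1.mono fun n hn => (hn.sub_const z).div_const _
  have gd2 : ∀ᶠ n in (𝒰 : Filter ℕ), DifferentiableOn ℂ (fun v => (Γ2 n v - z) / (σ2 n : ℂ)) S :=
    h2.mono fun n hn => (hn.sub_const z).div_const _
  have dA : DifferentiableOn ℂ A S := hA.differentiableOn gd1 hS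
  have dB : DifferentiableOn ℂ B S := hB.differentiableOn gd2 hS
  have dA' : DifferentiableOn ℂ (deriv A) S := dA.deriv hS
  have dB' : DifferentiableOn ℂ (deriv B) S := dB.deriv hS
  have hA' := ulim_deriv 𝒰 hS gd1 hA
  have hB' := ulim_deriv 𝒰 hS gd2 hB
  intro w hw
  obtain ⟨r, hr, hrS⟩ := Metric.isOpen_iff.1 hS w hw
  have hcomb : DifferentiableOn ℂ (fun u => m * ((starRingEnd ℂ) (A u) * deriv B u - (starRingEnd ℂ) (B u) * deriv A u))
      (ball w r) := by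
    refine g_app fun r' hr' ε hε => ?_
    have hK : IsCompact (closedBall w r') := isCompact_closedBall w r'
    have hKs : closedBall w r' ⊆ S := (closedBall_subset_ball hr').trans hrS
    have hcc : TendstoLocallyUniformlyOn (fun n u => m * ((starRingEnd ℂ) ((Γ1 n u - z) / (σ1 n : ℂ)) *
        deriv (fun v => (Γ2 n v - z) / (σ2 n : ℂ)) u -
        (starRingEnd ℂ) ((Γ2 n u - z) / (σ2 n : ℂ)) * deriv (fun v => (Γ1 n v - z) / (σ1 n : ℂ)) u))
        (fun u => m * ((starRingEnd ℂ) (A u) * deriv B u - (starRingEnd ℂ) (B u) * deriv A u))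
        (𝒰 : Filter ℕ) S := by
      rw [tendstoLocallyUniformlyOn_iff_forall_tendsto]
      intro v hv
      have c1 := g_cv dA.continuousOn hA v hv
      have c2 := g_cv dB.continuousOn hB v hv
      have c3 := g_cv dA'.continuousOn hA' v hv
      have c4 := g_cv dB'.continuousOn hB' v hv
      have c6 := ((((Complex.continuous_conj.tendsto _).comp c1).mul c4).sub
        (((Complex.continuous_conj.tendsto _).comp c2).mul c3)).const_mul m
      have hcont : ContinuousOn (fun u => m * ((starRingEnd ℂ) (A u) * deriv B u -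
          (starRingEnd ℂ) (B u) * deriv A u)) S :=
        continuousOn_const.mul (((Complex.continuous_conj.comp_continuousOn dA.continuousOn).mul
          dB'.continuousOn).sub ((Complex.continuous_conj.comp_continuousOn dB.continuousOn).mul dA'.continuousOn))
      have c7 : Tendsto (fun y : ℕ × ℂ => m * ((starRingEnd ℂ) (A y.2) * deriv B y.2 -
          (starRingEnd ℂ) (B y.2) * deriv A y.2)) ((𝒰 : Filter ℕ) ×ˢ 𝓝[S] v)
          (𝓝 (m * ((starRingEnd ℂ) (A v) * deriv B v - (starRingEnd ℂ) (B v) * deriv A v))) :=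
        (hcont v hv).tendsto.comp tendsto_snd
      exact (c7.prodMk_nhds c6).mono_right (nhds_le_uniformity _)
    have hU := (tendstoLocallyUniformlyOn_iff_forall_isCompact hS).1 hcc _ hKs hK
    have hU1 := (tendstoLocallyUniformlyOn_iff_forall_isCompact hS).1 hA' _ hKs hK
    have hU2 := (tendstoLocallyUniformlyOn_iff_forall_isCompact hS).1 hB' _ hKs hK
    obtain ⟨C, hC⟩ := hK.exists_bound_of_continuousOn (dA'.continuousOn.mono hKs)
    obtain ⟨C', hC'⟩ := hK.exists_bound_of_continuousOn (dB'.continuousOn.mono hKs)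
    rw [Metric.tendstoUniformlyOn_iff] at hU hU1 hU2
    obtain ⟨L, hL, hL1, hL2⟩ : ∃ L : ℝ, 0 < L ∧ C + 1 ≤ L ∧ C' + 1 ≤ L :=
      ⟨max 1 (max (C + 1) (C' + 1)), lt_of_lt_of_le one_pos (le_max_left _ _),
        (le_max_left _ _).trans (le_max_right _ _), (le_max_right _ _).trans (le_max_right _ _)⟩
    have hε4 : 0 < ε / (4 * L) := by positivity
    have k1 : ∀ᶠ n in (𝒰 : Filter ℕ), |e1 n / σ1 n| < ε / (4 * L) := by
      have := t1.abs
      rw [abs_zero] at this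
      exact this.eventually_lt_const hε4
    have k2 : ∀ᶠ n in (𝒰 : Filter ℕ), |e2 n / σ2 n| < ε / (4 * L) := by
      have := t2.abs
      rw [abs_zero] at this
      exact this.eventually_lt_const hε4
    obtain ⟨n, hn, hn1, hn2, hk1, hk2, hyn, i1, i2, i3, i4, i5, i6⟩ := (((hU (ε / 2) (by linarith)).and ((hU1 1 one_pos).and
      ((hU2 1 one_pos).and (k1.and (k2.and (hy.and (h1.and (h2.and (f1.and (f2.and (s1.and s2)))))))))))).exists
    obtain ⟨H, hH1, hH2⟩ := g_one i5 i6 hS hyn.1 hyn.2 i1 i2 i3 i4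
    refine ⟨H, hH1.mono hrS, fun u hu => ?_⟩
    have j0 := hn u hu
    have j1 := hH2 u (hKs hu)
    have j2 : ‖deriv (fun v => (Γ1 n v - z) / (σ1 n : ℂ)) u‖ ≤ L := by
      have j1 := hn1 u hu
      have j2 := hC u hu
      rw [dist_eq_norm] at j1
      have j3 : ‖deriv (fun v => (Γ1 n v - z) / (σ1 n : ℂ)) u‖ ≤
          ‖deriv A u‖ + ‖deriv A u - deriv (fun v => (Γ1 n v - z) / (σ1 n : ℂ)) u‖ := by
        have := norm_sub_le (deriv A u) (deriv A u - deriv (fun v => (Γ1 n v - z) / (σ1 n : ℂ)) u)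
        rwa [sub_sub_cancel] at this
      linarith
    have j3 : ‖deriv (fun v => (Γ2 n v - z) / (σ2 n : ℂ)) u‖ ≤ L := by
      have j1 := hn2 u hu
      have j2 := hC' u hu
      rw [dist_eq_norm] at j1
      have j3 : ‖deriv (fun v => (Γ2 n v - z) / (σ2 n : ℂ)) u‖ ≤
          ‖deriv B u‖ + ‖deriv B u - deriv (fun v => (Γ2 n v - z) / (σ2 n : ℂ)) u‖ := by
        have := norm_sub_le (deriv B u) (deriv B u - deriv (fun v => (Γ2 n v - z) / (σ2 n : ℂ)) u)
        rwa [sub_sub_cancel] at this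
      linarith
    rw [dist_eq_norm] at j0
    have j4 : e1 n / σ1 n * ‖deriv (fun v => (Γ2 n v - z) / (σ2 n : ℂ)) u‖ ≤ ε / 4 := by
      have a1 : e1 n / σ1 n * ‖deriv (fun v => (Γ2 n v - z) / (σ2 n : ℂ)) u‖ ≤ ε / (4 * L) * L :=
        (mul_le_mul_of_nonneg_right ((le_abs_self _).trans hk1.le) (norm_nonneg _)).trans
          (mul_le_mul_of_nonneg_left j3 hε4.le)
      have a2 : ε / (4 * L) * L = ε / 4 := by field_simp
      linarith
    have j5 : e2 n / σ2 n * ‖deriv (fun v => (Γ1 n v - z) / (σ1 n : ℂ)) u‖ ≤ ε / 4 := by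
      have a1 : e2 n / σ2 n * ‖deriv (fun v => (Γ1 n v - z) / (σ1 n : ℂ)) u‖ ≤ ε / (4 * L) * L :=
        (mul_le_mul_of_nonneg_right ((le_abs_self _).trans hk2.le) (norm_nonneg _)).trans
          (mul_le_mul_of_nonneg_left j2 hε4.le)
      have a2 : ε / (4 * L) * L = ε / 4 := by field_simp
      linarith
    have j6 := norm_sub_le_norm_sub_add_norm_sub (m * ((starRingEnd ℂ) (A u) * deriv B u - (starRingEnd ℂ) (B u) * deriv A u))
      (m * ((starRingEnd ℂ) ((Γ1 n u - z) / (σ1 n : ℂ)) * deriv (fun v => (Γ2 n v - z) / (σ2 n : ℂ)) u -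
        (starRingEnd ℂ) ((Γ2 n u - z) / (σ2 n : ℂ)) * deriv (fun v => (Γ1 n v - z) / (σ1 n : ℂ)) u)) (H u)
    linarith
  have hn : ball w r ∈ 𝓝 w := isOpen_ball.mem_nhds (mem_ball_self hr)
  have hnS := hS.mem_nhds hw
  refine g_bar (dA.differentiableAt hnS) (dB.differentiableAt hnS) (dB'.differentiableAt hnS)
    (dA'.differentiableAt hnS) ?_
  have h3 := (hcomb.differentiableAt hn).const_mul m⁻¹
  refine h3.congr_of_eventuallyEq (Eventually.of_forall fun v => ?_)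
  show _ = m⁻¹ * (m * _)
  rw [inv_mul_cancel_left₀ hm]

theorem gal_aff {S : Set ℂ} (hS : IsOpen S) (hc : IsPreconnected S) {A B : ℂ → ℂ} (hA : DifferentiableOn ℂ A S)
    (hB : DifferentiableOn ℂ B S) {w0 : ℂ} (hw : w0 ∈ S) (h0 : deriv A w0 ≠ 0)
    (h : ∀ v ∈ S, (starRingEnd ℂ) (deriv A v) * deriv B v = (starRingEnd ℂ) (deriv B v) * deriv A v) :
    ∃ (t : ℝ) (b : ℂ), ∀ v ∈ S, B v = t * A v + b := by
  have hd : DifferentiableOn ℂ (deriv A) S := hA.deriv hS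
  have hd' : DifferentiableOn ℂ (deriv B) S := hB.deriv hS
  have hcont : ContinuousAt (deriv A) w0 := (hd.differentiableAt (hS.mem_nhds hw)).continuousAt
  obtain ⟨s, hs, hs2⟩ := Metric.mem_nhds_iff.1 ((hcont.eventually_ne h0).and (hS.mem_nhds hw))
  have hne : ∀ u ∈ ball w0 s, deriv A u ≠ 0 := fun u hu => (hs2 hu).1
  have hsS : ball w0 s ⊆ S := fun u hu => (hs2 hu).2
  have hq : DifferentiableOn ℂ (fun u => deriv B u / deriv A u) (ball w0 s) := (hd'.mono hsS).div (hd.mono hsS) hne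
  have hreal : ∀ u ∈ ball w0 s, (deriv B u / deriv A u).im = 0 := by
    intro u hu
    rw [← Complex.conj_eq_iff_im, map_div₀, div_eq_div_iff ((map_ne_zero _).2 (hne u hu)) (hne u hu)]
    rw [← h u (hsS hu)]
    ring
  obtain ⟨q, hq2⟩ := (hq.analyticOnNhd isOpen_ball).eq_const_of_im_eq_const (c₀ := 0) hreal isOpen_ball
    ((convex_ball w0 s).isConnected ⟨w0, mem_ball_self hs⟩)
  have hqw := hq2 w0 (mem_ball_self hs)
  have hqr : ((q.re : ℝ) : ℂ) = q := by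
    rw [← Complex.conj_eq_iff_re, Complex.conj_eq_iff_im, ← hqw]
    exact hreal w0 (mem_ball_self hs)
  have hE : EqOn (deriv B) (fun u => q * deriv A u) S := by
    refine (hd'.analyticOnNhd hS).eqOn_of_preconnected_of_eventuallyEq
      ((hd.const_mul q).analyticOnNhd hS) hc hw ?_
    filter_upwards [ball_mem_nhds w0 hs] with u hu
    have := hq2 u hu
    rw [div_eq_iff (hne u hu)] at this
    exact this
  have hF : DifferentiableOn ℂ (fun u => B u - q * A u) S := hB.sub (hA.const_mul q)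
  have hF0 : S.EqOn (deriv fun u => B u - q * A u) 0 := by
    intro u hu
    have a1 := hA.differentiableAt (hS.mem_nhds hu)
    have a2 := hB.differentiableAt (hS.mem_nhds hu)
    rw [deriv_fun_sub a2 (a1.const_mul q), deriv_const_mul _ a1, hE hu]
    exact sub_self _
  refine ⟨q.re, B w0 - q * A w0, fun u hu => ?_⟩
  have h5 := hS.is_const_of_deriv_eq_zero hc hF hF0 hu hw
  rw [hqr]
  have h6 : B u - q * A u = B w0 - q * A w0 := h5
  linear_combination h6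

end Pool.Agent.H44.LA
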