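import Pool.Agent.H44.LA.Defs
import Pool.Agent.H43.UB.UH
import Pool.Agent.H80.AJ.Distort
import Pool.Agent.H80.AJ.Cover

/-!
# Koebe tools on the unit disc

PROOF of `kb`: `N` with `2 ρ0 / N ≤ (1 - ρ0) / 2`; from `v'` to `v` go through the `N + 1` points `v' + (i / N) (v - v')` of `closedBall 0 ρ0`; two consecutive
points are in `closedBall p ((1 - ρ0) / 2)` for the first one `p`, and `ball p (1 - ρ0) ⊆ ball 0 1`: `distort` (H80/AJ) gives the factor `KK`: `K = KK ^ N`.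
The second claim: mean value on the convex set `closedBall 0 ρ0`. `kb_cov`: `univ_cover` (H80/AJ/Cover) on `ball v (1 - ‖v‖)`.
`kb_up`: if `φ '' ball 0 1 ⊆ ball x r` then `‖deriv φ v‖ ≤ 2 r / (1 - ‖v‖)` (Cauchy estimate).
-/

set_option autoImplicit false

open Filter Topology Metric Set MeasureTheory

namespace Pool.Agent.H44.LA

open Pool.Agent.H80.AJ

theorem kb {ρ0 : ℝ} (h0 : 0 < ρ0) (h1 : ρ0 < 1) : ∃ K : ℝ, 1 ≤ K ∧ ∀ φ : ℂ → ℂ, DifferentiableOn ℂ φ (ball 0 1) →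
    InjOn φ (ball 0 1) → ∀ v ∈ closedBall (0 : ℂ) ρ0, ∀ v' ∈ closedBall (0 : ℂ) ρ0,
      0 < ‖deriv φ v‖ ∧ ‖deriv φ v‖ ≤ K * ‖deriv φ v'‖ ∧ ‖φ v - φ v'‖ ≤ K * ‖deriv φ 0‖ * ‖v - v'‖ := by
  obtain ⟨K1, hK1, hdis⟩ := distortion
  obtain ⟨N, hN⟩ := exists_nat_gt (4 * ρ0 / (1 - ρ0))
  have hd : 0 < 1 - ρ0 := by linarith
  have hN0 : (0 : ℝ) < N := (by positivity : (0 : ℝ) ≤ 4 * ρ0 / (1 - ρ0)).trans_lt hN
  have hstep : ∀ φ : ℂ → ℂ, DifferentiableOn ℂ φ (ball 0 1) → InjOn φ (ball 0 1) → ∀ p ∈ closedBall (0 : ℂ) ρ0,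
      ∀ q : ℂ, ‖q - p‖ ≤ (1 - ρ0) / 2 → ‖deriv φ q‖ ≤ K1 * ‖deriv φ p‖ := by
    intro φ hφ hi p hp q hq
    have hsub : ball p (1 - ρ0) ⊆ ball (0 : ℂ) 1 := by
      intro w hw
      rw [mem_ball, dist_eq_norm] at hw
      rw [mem_closedBall_zero_iff] at hp
      rw [mem_ball_zero_iff]
      calc ‖w‖ = ‖(w - p) + p‖ := by rw [sub_add_cancel]
        _ ≤ ‖w - p‖ + ‖p‖ := norm_add_le _ _
        _ < 1 := by linarith
    exact hdis φ p (1 - ρ0) hd (hφ.mono hsub) (hi.mono hsub) q (by rw [mem_closedBall, dist_eq_norm]; exact hq) p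
      (mem_closedBall_self (by linarith))
  have hpos : ∀ φ : ℂ → ℂ, DifferentiableOn ℂ φ (ball 0 1) → InjOn φ (ball 0 1) → ∀ v ∈ closedBall (0 : ℂ) ρ0,
      0 < ‖deriv φ v‖ := by
    intro φ hφ hi v hv
    refine norm_pos_iff.2 ?_
    have hv1 : v ∈ ball (0 : ℂ) 1 := closedBall_subset_ball h1 hv
    exact Pool.Agent.H43.UB.uh_der isOpen_ball hφ hi hv1
  have hcmp : ∀ φ : ℂ → ℂ, DifferentiableOn ℂ φ (ball 0 1) → InjOn φ (ball 0 1) → ∀ v ∈ closedBall (0 : ℂ) ρ0,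
      ∀ v' ∈ closedBall (0 : ℂ) ρ0, ‖deriv φ v‖ ≤ K1 ^ N * ‖deriv φ v'‖ := by
    intro φ hφ hi v hv v' hv'
    have hp : ∀ i : ℕ, i ≤ N → v' + ((i : ℝ) / N : ℝ) • (v - v') ∈ closedBall (0 : ℂ) ρ0 := by
      intro i hi'
      have h2 : (0 : ℝ) ≤ (i : ℝ) / N := by positivity
      have h3 : (i : ℝ) / N ≤ 1 := by
        rw [div_le_one hN0]
        exact_mod_cast hi'
      exact (convex_closedBall (0 : ℂ) ρ0).add_smul_sub_mem hv' hv ⟨h2, h3⟩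
    have key : ∀ i : ℕ, i ≤ N → ‖deriv φ (v' + ((i : ℝ) / N : ℝ) • (v - v'))‖ ≤ K1 ^ i * ‖deriv φ v'‖ := by
      intro i
      induction i with
      | zero =>
        intro _
        simp
      | succ i ih =>
        intro hi'
        have h2 := ih (by omega)
        have h3 := hstep φ hφ hi _ (hp i (by omega)) (v' + (((i + 1 : ℕ) : ℝ) / N : ℝ) • (v - v')) (by
          have e : v' + (((i + 1 : ℕ) : ℝ) / N : ℝ) • (v - v') - (v' + ((i : ℝ) / N : ℝ) • (v - v')) =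
              ((1 : ℝ) / N : ℝ) • (v - v') := by
            rw [add_sub_add_left_eq_sub, ← sub_smul]
            congr 1
            push_cast
            ring
          rw [e, norm_smul, Real.norm_eq_abs, abs_of_pos (by positivity)]
          have h4 : ‖v - v'‖ ≤ 2 * ρ0 := by
            rw [mem_closedBall_zero_iff] at hv hv'
            linarith [norm_sub_le v v']
          have h5 : 4 * ρ0 / (1 - ρ0) < N := hN
          rw [div_lt_iff₀ hd] at h5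
          rw [one_div, inv_mul_le_iff₀ hN0]
          nlinarith)
        calc _ ≤ K1 * ‖deriv φ (v' + ((i : ℝ) / N : ℝ) • (v - v'))‖ := h3
          _ ≤ K1 * (K1 ^ i * ‖deriv φ v'‖) := mul_le_mul_of_nonneg_left h2 (by linarith)
          _ = K1 ^ (i + 1) * ‖deriv φ v'‖ := by ring
    have h2 := key N le_rfl
    rwa [div_self hN0.ne', one_smul, add_sub_cancel] at h2
  refine ⟨K1 ^ N, one_le_pow₀ hK1, fun φ hφ hi v hv v' hv' => ⟨hpos φ hφ hi v hv, hcmp φ hφ hi v hv v' hv', ?_⟩⟩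
  refine Convex.norm_image_sub_le_of_norm_deriv_le (𝕜 := ℂ) (s := closedBall (0 : ℂ) ρ0) ?_ ?_ (convex_closedBall 0 ρ0) hv' hv
  · intro u hu
    exact hφ.differentiableAt (isOpen_ball.mem_nhds (closedBall_subset_ball h1 hu))
  · intro u hu
    exact hcmp φ hφ hi u hu 0 (mem_closedBall_self h0.le)

theorem kb_cov {φ : ℂ → ℂ} (hd : DifferentiableOn ℂ φ (ball 0 1)) (hi : InjOn φ (ball 0 1)) {v : ℂ}
    (hv : v ∈ ball (0 : ℂ) 1) {s : ℝ} (hs : 0 < s) (h1 : ‖v‖ + s ≤ 1) : ball (φ v) (s * ‖deriv φ v‖ / 16) ⊆ φ '' ball v s := by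
  have hsub : ball v s ⊆ ball (0 : ℂ) 1 := by
    intro w hw
    rw [mem_ball, dist_eq_norm] at hw
    rw [mem_ball_zero_iff]
    calc ‖w‖ = ‖(w - v) + v‖ := by rw [sub_add_cancel]
      _ ≤ ‖w - v‖ + ‖v‖ := norm_add_le _ _
      _ < 1 := by linarith
  exact univ_cover hs (hd.mono hsub) (hi.mono hsub)

theorem kb_up {φ : ℂ → ℂ} (hd : DifferentiableOn ℂ φ (ball 0 1)) {x : ℂ} {r : ℝ} (ho : φ '' ball 0 1 ⊆ ball x r) {v : ℂ}
    (hv : v ∈ ball (0 : ℂ) 1) : ‖deriv φ v‖ * (1 - ‖v‖) ≤ 2 * r := by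
  rw [mem_ball_zero_iff] at hv
  have h1 : 0 < 1 - ‖v‖ := by linarith
  have hsub : ball v (1 - ‖v‖) ⊆ ball (0 : ℂ) 1 := by
    intro w hw
    rw [mem_ball, dist_eq_norm] at hw
    rw [mem_ball_zero_iff]
    calc ‖w‖ = ‖(w - v) + v‖ := by rw [sub_add_cancel]
      _ ≤ ‖w - v‖ + ‖v‖ := norm_add_le _ _
      _ < 1 := by linarith
  have h2 : MapsTo φ (ball v (1 - ‖v‖)) (closedBall (φ v) (2 * r)) := by
    intro w hw
    have h3 := ho ⟨w, hsub hw, rfl⟩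
    have h4 := ho ⟨v, mem_ball_zero_iff.2 hv, rfl⟩
    rw [mem_ball] at h3 h4
    rw [mem_closedBall]
    linarith [dist_triangle_right (φ w) (φ v) x]
  have h3 := Complex.norm_deriv_le_div_of_mapsTo_ball (hd.mono hsub) h2 h1
  rwa [le_div_iff₀ h1] at h3

end Pool.Agent.H44.LA
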