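import Pool.Agent.H44.LA.Kb
import Pool.Agent.H81.RW.Shr

/-!
# Small windows; the univalent visits of a fixed window are finitely many

PROOF of `wd_small`: this is `sh` (H56/UD/DB) with `ε0 = δ2`. `wd_der`: `kb_cov` at the point of `J` and `shr` (H81/RW/Shr), or from `wd_small` with `ρ0 = max ρ1 (1/2)`: `‖deriv Φ 0‖ ≤ 4 ε1` (Cauchy on `ball 0 (1/2)`).
`un_wd`: `g` is injective because `Φ` is; `g v ∈ dm n`, `f^[n] (g v) = Φ v ∈ dm K` give `g v ∈ dm (n + K)` (`dm_add'`, with `h`), `f^[n + K] (g v) = f^[K] (Φ v)`.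

PROOF of `noat`: `J ∋ a ≠ b`, `δ3 = dist a b / 4`. `f^[m] '' O ⊆ ball x r ⊆ O`: `f^[l * m] '' O ⊆ ball x r` for `l ≥ 1`; `leo` for `O`: `J ⊆ f^[l * m] '' (O ∩ J)` for a large `l`: `a, b ∈ ball x r`.

PROOF of `ncv`. `ε0 ≤ δ3, δ` (`noat`: `J` is in no ball of radius `δ3`). (i) for every `e > 0` there is `N` with `‖deriv g 0‖ < e` for all `g` with `Un f U J δ n Φ g`, `n ≥ N` (`Φ` fixed): `g uc ∈ J` (`J_back`); if `‖deriv g 0‖ ≥ e` then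
(`kb`, `kb_cov`) `ball (g uc) t ⊆ g '' ball 0 1`, `t = (1 - θ) e / (16 K')`, and `f^[n + K] '' (ball (g uc) t ∩ J) ⊆ f^[K] '' (Φ '' ball 0 1) ⊆ ball y ε0`; but `leo` and compactness of `J` give `N` with `J ⊆ f^[n'] '' (ball y' t ∩ J)` for all `y' ∈ J`,
`n' ≥ N` (this is inside the proof of `shr`, H81/RW/Shr): contradiction.
(ii) `nc` (H56/UD/DN) with `y = p := Φ uc ∈ J`, a small `δ'` with `ball p δ' ⊆ Φ '' ball 0 1 ∩ thickening δ J` (`Φ` open), `G = g ∘ Φ⁻¹` (inverse of `Φ` on `ball p δ'`: holomorphic), `σ = ‖deriv g 0‖ > 0`: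
`‖G u - z‖ ≤ M σ` (`z = g u`, `‖u‖ ≤ ρ1`; shrink `δ'` so that `Φ⁻¹ (ball p δ') ⊆ closedBall 0 ((1 + θ) / 2)`; `kb` with `ρ0 = max ρ1 ((1 + θ) / 2)`), `σ ≤ M ‖deriv G p‖` (`deriv G p = deriv g uc / deriv Φ uc`; `M` may depend on `Φ`);
so `ε ≤ ‖deriv g 0‖` for all `n`, all `g` with `g u = z`. With (i): `n < N`.
-/

set_option autoImplicit false

open Filter Topology Metric Set MeasureTheory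

namespace Pool.Agent.H44.LA

open Pool.Agent.H56.UD Pool.Agent.H55.PB Pool.Agent.H56.WP

variable {f : ℂ → ℂ} {U J P Cr E : Set ℂ} {δ b0 : ℝ} {η : ℂ → ℂ → ℂ} {ρ : ℝ} {X hh μ : ℂ → ℂ}

theorem wd_small (h : PS f U J P Cr δ η ρ) {ρ1 ε1 : ℝ} (h0 : 0 < ρ1) (h1 : ρ1 < 1) (hε : 0 < ε1) :
    ∃ ε0 : ℝ, 0 < ε0 ∧ ∀ (K : ℕ) (θ : ℝ) (y : ℂ) (ε : ℝ) (Φ : ℂ → ℂ) (u : ℂ), y ∈ J → ε ≤ ε0 → Wd f U J P δ K θ y ε Φ →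
      ‖u‖ ≤ ρ1 → Φ u ∈ J → ∀ v ∈ closedBall (0 : ℂ) ρ1, ∀ v' ∈ closedBall (0 : ℂ) ρ1, ‖Φ v - Φ v'‖ < ε1 := by
  sorry

theorem wd_der (h : PS f U J P Cr δ η ρ) {ρ1 ε1 : ℝ} (h0 : 0 < ρ1) (h1 : ρ1 < 1) (hε : 0 < ε1) :
    ∃ ε0 : ℝ, 0 < ε0 ∧ ∀ (K : ℕ) (θ : ℝ) (y : ℂ) (ε : ℝ) (Φ : ℂ → ℂ) (u : ℂ), y ∈ J → ε ≤ ε0 → Wd f U J P δ K θ y ε Φ →
      ‖u‖ ≤ ρ1 → Φ u ∈ J → ‖deriv Φ 0‖ < ε1 := by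
  sorry

theorem un_wd {K n : ℕ} {θ : ℝ} {y : ℂ} {ε : ℝ} {Φ g : ℂ → ℂ} (hW : Wd f U J P δ K θ y ε Φ) (hg : Un f U J δ n Φ g) :
    Wd f U J P δ (n + K) θ y ε g := by
  sorry

theorem noat (h : PS f U J P Cr δ η ρ) : ∃ δ3 : ℝ, 0 < δ3 ∧ ∀ (m : ℕ) (x : ℂ) (r : ℝ) (O : Set ℂ), 1 ≤ m → r < δ3 →
    IsOpen O → (O ∩ J).Nonempty → ball x r ⊆ O → ¬ (f^[m] '' O ⊆ ball x r) := by
  sorry

theorem ncv (h : PS f U J P Cr δ η ρ) (hX : FX f U J E δ X hh μ b0) {θ ρ1 : ℝ} (hθ : 0 < θ) (hθ1 : θ < 1)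
    (h0 : 0 < ρ1) (h1 : ρ1 < 1) :
    ∃ ε0 : ℝ, 0 < ε0 ∧ ∀ (K : ℕ) (y : ℂ) (ε : ℝ) (Φ : ℂ → ℂ) (uc z : ℂ), y ∈ J → ε ≤ ε0 → Wd f U J P δ K θ y ε Φ →
      ‖uc‖ ≤ θ → Φ uc ∈ J → z ∈ E →
      ∃ N : ℕ, ∀ n ≥ N, ∀ (g : ℂ → ℂ) (u : ℂ), Un f U J δ n Φ g → ‖u‖ ≤ ρ1 → g u ≠ z := by
  sorry

end Pool.Agent.H44.LA
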