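import Pool.Agent.H44.LA.Gal
import Pool.Agent.H44.LA.Ncv

/-!
# LEMMA A: no regular window at the critical point (think 1842, 3.2)

PROOF of `lemA`. Suppose not: `M > 0` w.l.o.g.; for every `n` (`ε0 = 1 / (n + 1)`) there are `K n, N n, y n, ε n ≤ 1 / (n + 1), uc n, Φ n, g n`, `‖g n 0 - z‖ ≤ M ‖deriv (g n) 0‖`. `r n = ‖deriv (Φ n) 0‖ > 0`. `ρ0 = (1 + θ) / 2` (core radius of the visits).
(0) SMALL: `r n → 0`, `‖deriv (g n) 0‖ → 0` (`wd_der` for `Φ n`, and for `g n`: `un_wd`, `g n (uc n) ∈ J` by `J_back`, `c ∈ J`).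
(1) VISITS: `T n = {t | ∃ u, ‖u‖ ≤ ρ0, f^[t] z = Φ n u}` is infinite (`hrc`; `Φ n '' ball 0 ρ0` is an open neighbourhood of `c`). `t` is UNIVALENT if `∃ g' u, Un t (Φ n) g', ‖u‖ ≤ ρ0, g' u = z` (then `Φ n u = f^[t] z`). `ncv`: not all visits are univalent (`n` large).
 Let `t = t n` be the smallest non univalent visit (`Nat.find`). `orb` (H56/WP/Stp) at `z`, time `t`: its first alternative would be a univalent visit; so: `i + 1 + l = t`, `g'`, `Cv ... (K + l) θ y ε g' ρ0 c a v Φ'`, `x0`, `bet a x0 = u0`, `Φ' x0 = f^[i] z`, `f^[l] g' = Φ n`.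
 Write `Y n = Φ'` : `f^[l + 1] (Y n x) = Φ n (bet a x)` on `ball 0 1`, `Y n 0 = c`, `Y n` univalent, `Wd (K + l + 1) (dth θ) y ε (Y n)`, `‖a‖ ≤ θ`, `s n = ‖deriv (Y n) 0‖`. All `i' < t`, `i' ∈ T n`, are univalent.
(2) SIZE: `s n ≤ L r n` with `L = L(θ)`: `O = Y n '' {x | ‖bet a x‖ < ρ0}` (`⊆ Y n (closedBall 0 ρ7)`, `bet_sq_le`), `f^[l + 1] '' O ⊆ Φ n '' ball 0 ρ0 ⊆ ball c (K0 r n)` (`kb`), and `{‖bet a x‖ < ρ0} ⊇ ball 0 ρ8` (`bet_le`), so `O ⊇ ball c (ρ8 s n / 16)` (`kb_cov`): if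
 `ρ8 s n / 16 ≥ K0 r n` then `noat` (with `x = c`, `r = K0 r n`) is contradicted.
(3) `λ n = (Φ n)⁻¹ ∘ Y n`: `Y n (ball 0 ρ9) ⊆ ball c (K1 ρ9 s n) ⊆ ball c ((1 - θ) r n / (32 K0)) ⊆ Φ n '' ball (uc n) ((1 - θ) / 2)` for a small fixed `ρ9 = ρ9(θ)`. So `λ n` is holomorphic and injective on `ball 0 ρ9`, `Φ n (λ n v) = Y n v`, `‖λ n v‖ ≤ ρ0`. (Inverse functions of univalent
 maps: `Function.invFunOn`, holomorphic by `DifferentiableOn.. / HasStrictDerivAt.to_localInverse`, see H56/UD or H43/UB.)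
(4) ALONG AN ULTRAFILTER `𝒰 ≤ atTop`: `s n / r n → τ ∈ [0, L]`, `a n → a`, `‖a‖ ≤ θ`.
 FORM 2 (both cases): `Γ2 n = g n ∘ bet (a n)` on `ball 0 ρ9`, `σ2 n = ‖deriv (g n) 0‖`. `fo_two` with `y = Y n`, `m = l + 1`, `ψ = Φ n`, `β = bet (a n)`, `k = N n`, `Γ = g n`, `T = ball 0 1` (`deriv (Φ n) ≠ 0`: `der1` in H55/PB/Sq), and `(T)` at `z`, radius `2 M' σ2 n`, `ε`: `e2 n / σ2 n → 0`.
 `(Γ2 n - z) / σ2 n` is bounded by `M' = M + K0 + ..`; limit `B` (`ulim`, H56/UD/AA).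
 CASE `τ > 0`: `Γ1 n = g n ∘ λ n`, `σ1 n = ‖deriv (g n) 0‖`: `fo_two` with `y = Y n`, `m = 0`, `β = id`, `ψ = Y n`, `k = N n`, `Γ = Γ1 n` (`f^[N n] (Γ1 n v) = Φ n (λ n v) = Y n v`). Limit `A` of `(Γ1 n - z) / σ1 n`: `A' 0 ≠ 0`: `‖deriv (Γ1 n) 0‖ = ‖deriv (g n) (λ n 0)‖ ‖deriv (λ n) 0‖`,
 `‖deriv (λ n) 0‖ = s n / ‖deriv (Φ n) (λ n 0)‖ ≥ (s n / r n) / K0 ≥ τ / (2 K0)`.
 CASE `τ = 0`: `‖x0‖ ≤ ρ7` (`bet_sq_le`), so `f^[i] z = Y n x0 ∈ ball c (K1 s n) ⊆ Φ n '' closedBall 0 ρ0` eventually: `i ∈ T n`, `i < t`: univalent: `g' = g'' n`, `Un i (Φ n) g''`, `g'' u = z`, `‖u‖ ≤ ρ0`. Here `λ n` is defined on `ball 0 ρ10`, `ρ7 < ρ10 < 1` (eventually, since `s n / r n → 0`), with values in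
 `closedBall 0 ρ0`, and `z = g'' (λ n x0)` (`Φ n` injective: `λ n x0 = u`). `Γ1 n = g'' n ∘ λ n` is univalent on `ball 0 ρ10`, `σ1 n = ‖deriv (Γ1 n) 0‖`, `‖Γ1 n v - z‖ ≤ K2 σ1 n` on `ball 0 ρ9` (`kb` for `v ↦ Γ1 n (ρ10 v)`, `z = Γ1 n x0`). `σ1 n → 0` (`wd_der` for `g''`: `σ1 n = ‖deriv g'' (λ n 0)‖ ‖deriv (λ n) 0‖ ≤ K0 ‖deriv g'' 0‖ * K1 s n / r n`).
 `fo_two` with `y = Y n`, `m = 0`, `β = id`, `ψ = Y n`, `k = i`, `Γ = Γ1 n` (`f^[i] (Γ1 n v) = Φ n (λ n v) = Y n v`). `‖A' 0‖ = 1`.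
(5) END (both cases): `gal_conj` and `gal_aff` on `S = ball 0 ρ9` with `w0 = 0`, `m = μ z ≠ 0` (`hX.lb`, `hX.hb`): `B = t A + b`, `t` real. `B' 0 = 0` (`deriv (Γ2 n) 0 = deriv (g n) (a n) * deriv (bet (a n)) 0 = 0`, `ulim_deriv`), so `t = 0`, `B` is constant on `ball 0 ρ9`. But `‖deriv (Γ2 n) v‖ / σ2 n = ‖deriv (g n) (bet (a n) v)‖ ‖deriv (bet (a n)) v‖ / σ2 n
 ≥ K0⁻¹ ‖2 v (1 - ‖a n‖ ^ 2) / (1 + conj (a n) v ^ 2) ^ 2‖ ≥ c ‖v‖ > 0` at `v = ρ9 / 2`: contradiction.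

PROOF of `lemA_vis`: `kb`: `‖g 0 - z‖ = ‖g 0 - g u‖ ≤ K ‖deriv g 0‖`.
-/

set_option autoImplicit false

open Filter Topology Metric Set MeasureTheory

namespace Pool.Agent.H44.LA

open Pool.Agent.H56.UD Pool.Agent.H55.PB Pool.Agent.H56.WP

variable {f : ℂ → ℂ} {U J P E : Set ℂ} {δ b0 : ℝ} {η : ℂ → ℂ → ℂ} {ρ : ℝ} {X hh μ : ℂ → ℂ} {c : ℂ}

/-- LEMMA A: a small window with the only critical point `c` in its core has no univalent pull back with `z` at bounded distance -/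
theorem lemA (h : PS f U J P {c} δ η ρ) (hX : FX f U J E δ X hh μ b0) (hcP : c ∈ P) {z : ℂ} (hz : z ∈ E) (hrc : Rc f c z)
    {θ M : ℝ} (hθ : 0 < θ) (hθ1 : θ < 1) :
    ∃ ε0 : ℝ, 0 < ε0 ∧ ∀ (K n : ℕ) (y : ℂ) (ε : ℝ) (uc : ℂ) (Φ g : ℂ → ℂ), y ∈ J → ε ≤ ε0 → Wd f U J P δ K θ y ε Φ →
      ‖uc‖ ≤ θ → Φ uc = c → Un f U J δ n Φ g → ¬ (‖g 0 - z‖ ≤ M * ‖deriv g 0‖) := by
  sorry

/-- LEMMA A for visits -/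
theorem lemA_vis (h : PS f U J P {c} δ η ρ) (hX : FX f U J E δ X hh μ b0) (hcP : c ∈ P) {z : ℂ} (hz : z ∈ E)
    (hrc : Rc f c z) {θ ρ1 : ℝ} (hθ : 0 < θ) (hθ1 : θ < 1) (h1 : ρ1 < 1) :
    ∃ ε0 : ℝ, 0 < ε0 ∧ ∀ (K n : ℕ) (y : ℂ) (ε : ℝ) (uc u : ℂ) (Φ g : ℂ → ℂ), y ∈ J → ε ≤ ε0 → Wd f U J P δ K θ y ε Φ →
      ‖uc‖ ≤ θ → Φ uc = c → Un f U J δ n Φ g → ‖u‖ ≤ ρ1 → g u ≠ z := by
  sorry

end Pool.Agent.H44.LA
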